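import Mathlib

set_option autoImplicit false

/-! Metric families, finite decomposition complexity: basic closure properties. -/

namespace H63WH

open Set Metric

variable {X : Type*} [MetricSpace X]

/-- `B` is the union of a subcollection of `Y` whose distinct members are at distance at
least `r`. -/
def RDisj (r : ℝ) (Y : Set (Set X)) (B : Set X) : Prop :=
  ∃ U : Set (Set X), ⋃₀ U = B ∧ U ⊆ Y ∧
    ∀ P ∈ U, ∀ Q ∈ U, P ≠ Q → ∀ x ∈ P, ∀ y ∈ Q, r ≤ dist x y

/-- The family `F` is bounded. -/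
def Bdd (F : Set (Set X)) : Prop := ∃ D : ℝ, ∀ A ∈ F, ∀ x ∈ A, ∀ y ∈ A, dist x y ≤ D

/-- `F` is `(r,1)`-decomposable over `Y`. -/
def Dec (r : ℝ) (F Y : Set (Set X)) : Prop :=
  ∀ A ∈ F, ∃ B : Fin 2 → Set X, A = (⋃ k, B k) ∧ ∀ k, RDisj r Y (B k)

/-- The collection `E` of families contains the bounded families and is closed under
decomposability. -/
def Closed (E : Set (Set (Set X))) : Prop :=
  (∀ F : Set (Set X), Bdd F → F ∈ E) ∧
  (∀ F : Set (Set X), (∀ r : ℝ, 0 < r → ∃ Y ∈ E, Dec r F Y) → F ∈ E)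

/-- The family `F` has finite decomposition complexity. -/
def FDC (F : Set (Set X)) : Prop := ∀ E : Set (Set (Set X)), Closed E → F ∈ E

theorem fdc_bdd {F : Set (Set X)} (h : Bdd F) : FDC F := fun _ hE => hE.1 F h

theorem fdc_dec {F : Set (Set X)} (h : ∀ r : ℝ, 0 < r → ∃ Y, FDC Y ∧ Dec r F Y) : FDC F := by
  intro E hE
  refine hE.2 F fun r hr => ?_
  obtain ⟨Y, hY, hD⟩ := h r hr
  exact ⟨Y, hY E hE, hD⟩

/-- the families with finite decomposition complexity form a closed collection -/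
theorem closed_fdc : Closed ({F | FDC F} : Set (Set (Set X))) :=
  ⟨fun _ h => fdc_bdd h, fun _ h => fdc_dec fun r hr => h r hr⟩

theorem fdc_ind {p : Set (Set X) → Prop} (hb : ∀ F, Bdd F → p F)
    (hd : ∀ F, (∀ r : ℝ, 0 < r → ∃ Y, p Y ∧ Dec r F Y) → p F) {F : Set (Set X)} (h : FDC F) :
    p F :=
  h {F | p F} ⟨hb, fun F hF => hd F fun r hr => hF r hr⟩

/-- restriction of an `r`-disjoint union to a subset -/
theorem RDisj.inter {r : ℝ} {Y : Set (Set X)} {B : Set X} (h : RDisj r Y B) (A : Set X) :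
    RDisj r {Q | ∃ P ∈ Y, Q ⊆ P} (A ∩ B) := by
  obtain ⟨U, hU1, hU2, hU3⟩ := h
  refine ⟨(fun P => A ∩ P) '' U, ?_, ?_, ?_⟩
  · rw [sUnion_image, ← hU1, sUnion_eq_biUnion, inter_iUnion₂]
  · rintro _ ⟨P, hP, rfl⟩
    exact ⟨P, hU2 hP, inter_subset_right⟩
  · rintro _ ⟨P, hP, rfl⟩ _ ⟨Q, hQ, rfl⟩ hne x hx y hy
    have hPQ : P ≠ Q := fun h => hne (by rw [h])
    exact hU3 P hP Q hQ hPQ x hx.2 y hy.2

theorem fdc_refine {F F' : Set (Set X)} (h : FDC F) (h' : ∀ A ∈ F', ∃ B ∈ F, A ⊆ B) : FDC F' := by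
  revert F'
  refine fdc_ind (p := fun F => ∀ {F' : Set (Set X)}, (∀ A ∈ F', ∃ B ∈ F, A ⊆ B) → FDC F')
    ?_ ?_ h
  · rintro F ⟨D, hD⟩ F' h'
    refine fdc_bdd ⟨D, fun A hA x hx y hy => ?_⟩
    obtain ⟨B, hB, hAB⟩ := h' A hA
    exact hD B hB x (hAB hx) y (hAB hy)
  · intro F hF F' h'
    refine fdc_dec fun r hr => ?_
    obtain ⟨Y, hY, hD⟩ := hF r hr
    refine ⟨{Q | ∃ P ∈ Y, Q ⊆ P}, hY fun A hA => hA, ?_⟩
    intro A hA
    obtain ⟨A₀, hA₀, hAA⟩ := h' A hA
    obtain ⟨B, hB, hU⟩ := hD A₀ hA₀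
    refine ⟨fun k => A ∩ B k, ?_, fun k => ?_⟩
    · rw [← inter_iUnion, ← hB, inter_eq_left.2 hAA]
    · exact (hU k).inter A

/-- a family decomposes over any family which contains it -/
theorem dec_self {r : ℝ} {F Y : Set (Set X)} (h : F ⊆ Y) : Dec r F Y := by
  intro A hA
  refine ⟨fun _ => A, (iUnion_const A).symm, fun _ => ⟨{A}, sUnion_singleton A, ?_, ?_⟩⟩
  · rintro _ rfl
    exact h hA
  · rintro _ rfl _ rfl hne
    exact absurd rfl hne

theorem RDisj.mono {r : ℝ} {Y Y' : Set (Set X)} {B : Set X} (h : RDisj r Y B) (hY : Y ⊆ Y') :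
    RDisj r Y' B := by
  obtain ⟨U, h1, h2, h3⟩ := h
  exact ⟨U, h1, h2.trans hY, h3⟩

theorem RDisj.mono_r {r r' : ℝ} {Y : Set (Set X)} {B : Set X} (h : RDisj r Y B) (hr : r' ≤ r) :
    RDisj r' Y B := by
  obtain ⟨U, h1, h2, h3⟩ := h
  exact ⟨U, h1, h2, fun P hP Q hQ hne x hx y hy => hr.trans (h3 P hP Q hQ hne x hx y hy)⟩

theorem rdisj_empty {r : ℝ} {Y : Set (Set X)} : RDisj r Y (∅ : Set X) :=
  ⟨∅, sUnion_empty, empty_subset _, fun P hP => absurd hP (notMem_empty P)⟩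

theorem rdisj_single {r : ℝ} {Y : Set (Set X)} {B : Set X} (h : B ∈ Y) : RDisj r Y B := by
  refine ⟨{B}, sUnion_singleton B, ?_, ?_⟩
  · rintro _ rfl
    exact h
  · rintro _ rfl _ rfl hne
    exact absurd rfl hne

theorem Dec.mono {r : ℝ} {F Y Y' : Set (Set X)} (h : Dec r F Y) (hY : Y ⊆ Y') : Dec r F Y' := by
  intro A hA
  obtain ⟨B, hB, hU⟩ := h A hA
  exact ⟨B, hB, fun k => (hU k).mono hY⟩

theorem Dec.union {r : ℝ} {F G Y : Set (Set X)} (h : Dec r F Y) (h' : Dec r G Y) :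
    Dec r (F ∪ G) Y := by
  rintro A (hA | hA)
  · exact h A hA
  · exact h' A hA

theorem fdc_union {F G : Set (Set X)} (hF : FDC F) (hG : FDC G) : FDC (F ∪ G) := by
  revert G
  refine fdc_ind (p := fun F => ∀ {G : Set (Set X)}, FDC G → FDC (F ∪ G)) ?_ ?_ hF
  · intro F hF G hG
    revert F
    refine fdc_ind (p := fun G => ∀ F : Set (Set X), Bdd F → FDC (F ∪ G)) ?_ ?_ hG
    · rintro G ⟨D', hD'⟩ F ⟨D, hD⟩
      refine fdc_bdd ⟨max D D', ?_⟩
      rintro A (hA | hA) x hx y hy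
      · exact (hD A hA x hx y hy).trans (le_max_left _ _)
      · exact (hD' A hA x hx y hy).trans (le_max_right _ _)
    · intro G hG F hF
      refine fdc_dec fun r hr => ?_
      obtain ⟨Y, hY, hD⟩ := hG r hr
      exact ⟨F ∪ Y, hY F hF, (dec_self subset_union_left).union (hD.mono subset_union_right)⟩
  · intro F hF G hG
    refine fdc_dec fun r hr => ?_
    obtain ⟨Y, hY, hD⟩ := hF r hr
    exact ⟨Y ∪ G, hY hG, (hD.mono subset_union_left).union (dec_self subset_union_right)⟩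

/-- all subsets of members of a family with finite decomposition complexity -/
theorem fdc_subsets {F : Set (Set X)} (h : FDC F) : FDC {Q | ∃ P ∈ F, Q ⊆ P} :=
  fdc_refine h fun _ hA => hA

/-- The bounded subsets of the members of `F`. -/
def BS (F : Set (Set X)) : Set (Set X) :=
  {Q | (∃ P ∈ F, Q ⊆ P) ∧ ∃ D : ℝ, ∀ x ∈ Q, ∀ y ∈ Q, dist x y ≤ D}

/-- Reduction to the bounded subsets. -/
theorem fdc_of_bs {F : Set (Set X)} (h : FDC (BS F)) : FDC F := by
  refine fdc_dec fun r hr => ⟨BS F, h, fun A hA => ?_⟩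
  rcases A.eq_empty_or_nonempty with rfl | ⟨x₀, hx₀⟩
  · refine ⟨fun _ => ∅, (iUnion_const _).symm, fun _ => rdisj_empty⟩
  · let k : X → ℕ := fun x => ⌊dist x x₀ / r⌋₊
    let S : ℕ → Set X := fun i => {x ∈ A | k x = i}
    have hk1 : ∀ x, (k x : ℝ) * r ≤ dist x x₀ := fun x => by
      have := Nat.floor_le (div_nonneg (dist_nonneg (x := x) (y := x₀)) hr.le)
      calc (k x : ℝ) * r ≤ dist x x₀ / r * r := by gcongr
        _ = dist x x₀ := by field_simp
    have hk2 : ∀ x, dist x x₀ < ((k x : ℝ) + 1) * r := fun x => by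
      have := Nat.lt_floor_add_one (dist x x₀ / r)
      calc dist x x₀ = dist x x₀ / r * r := by field_simp
        _ < ((k x : ℝ) + 1) * r := by gcongr
    have hS : ∀ i j, i ≤ j → i ≠ j → i % 2 = j % 2 → ∀ x ∈ S i, ∀ y ∈ S j, r ≤ dist x y := by
      intro i j hij hne hmod x hx y hy
      have h2 : i + 2 ≤ j := by omega
      have h3 : ((i : ℝ) + 2) ≤ j := by exact_mod_cast h2
      have hx' := hk2 x
      have hy' := hk1 y
      rw [hx.2] at hx'
      rw [hy.2] at hy'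
      have htri : dist y x₀ ≤ dist x y + dist x x₀ := by
        rw [dist_comm x y]
        exact dist_triangle y x x₀
      nlinarith
    refine ⟨fun c => {x ∈ A | k x % 2 = c}, ?_, fun c => ?_⟩
    · ext x
      simp only [mem_iUnion, mem_ofPred_eq]
      constructor
      · intro hx
        exact ⟨⟨k x % 2, Nat.mod_lt _ two_pos⟩, hx, rfl⟩
      · rintro ⟨_, hx, _⟩
        exact hx
    · refine ⟨{Q | ∃ i : ℕ, i % 2 = c ∧ Q = S i}, ?_, ?_, ?_⟩
      · ext x
        simp only [mem_sUnion, mem_ofPred_eq]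
        constructor
        · rintro ⟨_, ⟨i, hi, rfl⟩, hx⟩
          exact ⟨hx.1, by rw [hx.2]; exact hi⟩
        · rintro ⟨hx, hc⟩
          exact ⟨S (k x), ⟨k x, hc, rfl⟩, hx, rfl⟩
      · rintro _ ⟨i, _, rfl⟩
        refine ⟨⟨A, hA, fun x hx => hx.1⟩, 2 * (((i : ℝ) + 1) * r), fun x hx y hy => ?_⟩
        have hx' := hk2 x
        have hy' := hk2 y
        rw [hx.2] at hx'
        rw [hy.2] at hy'
        have htri : dist x y ≤ dist x x₀ + dist y x₀ := by
          rw [dist_comm y x₀]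
          exact dist_triangle x x₀ y
        linarith
      · rintro _ ⟨i, hi, rfl⟩ _ ⟨j, hj, rfl⟩ hne x hx y hy
        have hij : i ≠ j := fun h => hne (by rw [h])
        rcases le_total i j with hle | hle
        · exact hS i j hle hij (hi.trans hj.symm) x hx y hy
        · rw [dist_comm]
          exact hS j i hle hij.symm (hj.trans hi.symm) y hy x hx

end H63WH
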