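import Mathlib
import Pool.Agent.H63WH.Basic

set_option autoImplicit false

/-! One step of the construction of nested holes at all scales. -/

namespace H63WH

open Set Metric

variable {X : Type*} [MetricSpace X]

/-- two sets have points at distance less than `2 r` -/
def Near (r : ℝ) (S S' : Set X) : Prop := ∃ x ∈ S, ∃ y ∈ S', dist x y < 2 * r

/-- `U` together with the members of `K` near it -/
def St (r : ℝ) (K : Set (Set X)) (U : Set X) : Set X := U ∪ ⋃₀ {L ∈ K | Near r L U}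

/-- the open `r`-neighbourhood of `St r K U` -/
def Vh (r : ℝ) (K : Set (Set X)) (U : Set X) : Set X := {x | ∃ y ∈ St r K U, dist x y < r}

/-- `Vh r K U` together with the members of `K` near it -/
def Mh (r : ℝ) (K : Set (Set X)) (U : Set X) : Set X :=
  Vh r K U ∪ ⋃₀ {L ∈ K | Near r L (Vh r K U)}

/-- the next family -/
def Nx (r : ℝ) (K W : Set (Set X)) : Set (Set X) :=
  Mh r K '' W ∪ {L ∈ K | ∀ U ∈ W, ¬ Near r L (Vh r K U)}

/-- distinct members of `K` are at distance at least `l` -/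
def Sep (l : ℝ) (K : Set (Set X)) : Prop :=
  ∀ P ∈ K, ∀ Q ∈ K, P ≠ Q → ∀ x ∈ P, ∀ y ∈ Q, l ≤ dist x y

/-- the members of `K` have diameter at most `T` -/
def BddBy (T : ℝ) (K : Set (Set X)) : Prop := ∀ A ∈ K, ∀ x ∈ A, ∀ y ∈ A, dist x y ≤ T

variable {r T D l : ℝ} {K W : Set (Set X)}

theorem vh_near (hr : 0 < r) (hT : 0 ≤ T) (hK : BddBy T K) {U : Set X} {x : X}
    (hx : x ∈ Vh r K U) : ∃ u ∈ U, dist x u < T + 3 * r := by
  obtain ⟨y, hy, hxy⟩ := hx
  rcases hy with hy | ⟨L, ⟨hL, k, hk, u, hu, hku⟩, hy⟩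
  · exact ⟨y, hy, by linarith⟩
  · refine ⟨u, hu, ?_⟩
    have h1 := hK L hL y hy k hk
    have h2 := dist_triangle x y u
    have h3 := dist_triangle y k u
    linarith

theorem mh_near (hr : 0 < r) (hT : 0 ≤ T) (hK : BddBy T K) {U : Set X} {x : X}
    (hx : x ∈ Mh r K U) : ∃ u ∈ U, dist x u < 2 * T + 5 * r := by
  rcases hx with hx | ⟨L, ⟨hL, k, hk, v, hv, hkv⟩, hy⟩
  · obtain ⟨u, hu, h⟩ := vh_near hr hT hK hx
    exact ⟨u, hu, by linarith⟩
  · obtain ⟨u, hu, h⟩ := vh_near hr hT hK hv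
    refine ⟨u, hu, ?_⟩
    have h1 := hK L hL x hy k hk
    have h2 := dist_triangle x k u
    have h3 := dist_triangle k v u
    linarith

theorem vh_sub_mh {U : Set X} : Vh r K U ⊆ Mh r K U := subset_union_left

theorem sub_vh (hr : 0 < r) {U : Set X} : U ⊆ Vh r K U := fun x hx =>
  ⟨x, Or.inl hx, by rw [dist_self]; exact hr⟩

theorem nx_bdd (hr : 0 < r) (hT : 0 ≤ T) (hD : 0 ≤ D) (hK : BddBy T K) (hW : BddBy D W) :
    BddBy (D + 4 * T + 10 * r) (Nx r K W) := by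
  rintro A (⟨U, hU, rfl⟩ | ⟨hA, _⟩) x hx y hy
  · obtain ⟨u, hu, h1⟩ := mh_near hr hT hK hx
    obtain ⟨v, hv, h2⟩ := mh_near hr hT hK hy
    have h3 := hW U hU u hu v hv
    have h4 := dist_triangle x u y
    have h5 := dist_triangle u v y
    rw [dist_comm v y] at h5
    linarith
  · have := hK A hA x hx y hy
    linarith

theorem nx_sep (hr : 0 < r) (hT : 0 ≤ T) (hK : BddBy T K) (hKs : Sep (2 * r) K)
    (hWs : Sep l W) (hl : 4 * T + 12 * r ≤ l) : Sep (2 * r) (Nx r K W) := by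
  have key : ∀ U ∈ W, ∀ L ∈ K, (∀ U ∈ W, ¬ Near r L (Vh r K U)) → ∀ x ∈ Mh r K U, ∀ y ∈ L,
      2 * r ≤ dist x y := by
    intro U hU L hL hLU x hx y hy
    rcases hx with hx | ⟨L', ⟨hL', hn⟩, hx⟩
    · by_contra hc
      push Not at hc
      exact hLU U hU ⟨y, hy, x, hx, by rw [dist_comm]; exact hc⟩
    · exact hKs L' hL' L hL (fun h => hLU U hU (h ▸ hn)) x hx y hy
  rintro P (⟨U, hU, rfl⟩ | ⟨hP, hP'⟩) Q (⟨U', hU', rfl⟩ | ⟨hQ, hQ'⟩) hne x hx y hy
  · have hUU : U ≠ U' := fun h => hne (by rw [h])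
    obtain ⟨u, hu, h1⟩ := mh_near hr hT hK hx
    obtain ⟨v, hv, h2⟩ := mh_near hr hT hK hy
    have h3 := hWs U hU U' hU' hUU u hu v hv
    have h4 := dist_triangle u x v
    have h5 := dist_triangle x y v
    rw [dist_comm u x] at h4
    linarith
  · exact key U hU Q hQ hQ' x hx y hy
  · rw [dist_comm]
    exact key U' hU' P hP hP' y hy x hx
  · exact hKs P hP Q hQ hne x hx y hy

theorem vh_sep (hr : 0 < r) (hT : 0 ≤ T) (hK : BddBy T K)
    (hWs : Sep l W) (hl : 4 * T + 12 * r ≤ l) {U U' : Set X} (hU : U ∈ W) (hU' : U' ∈ W)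
    (hne : U ≠ U') {x y : X} (hx : x ∈ Vh r K U) (hy : y ∈ Vh r K U') : r ≤ dist x y := by
  obtain ⟨u, hu, h1⟩ := vh_near hr hT hK hx
  obtain ⟨v, hv, h2⟩ := vh_near hr hT hK hy
  have h3 := hWs U hU U' hU' hne u hu v hv
  have h4 := dist_triangle u x v
  have h5 := dist_triangle x y v
  rw [dist_comm u x] at h4
  linarith

theorem nx_union : ⋃₀ (Nx r K W) = ⋃₀ K ∪ ⋃ U ∈ W, Vh r K U := by
  ext x
  constructor
  · rintro ⟨_, (⟨U, hU, rfl⟩ | ⟨hP, _⟩), hx⟩
    · rcases hx with hx | ⟨L, ⟨hL, _⟩, hx⟩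
      · exact Or.inr (mem_biUnion hU hx)
      · exact Or.inl ⟨L, hL, hx⟩
    · exact Or.inl ⟨_, hP, hx⟩
  · rintro (⟨L, hL, hx⟩ | hx)
    · by_cases h : ∀ U ∈ W, ¬ Near r L (Vh r K U)
      · exact ⟨L, Or.inr ⟨hL, h⟩, hx⟩
      · push Not at h
        obtain ⟨U, hU, hn⟩ := h
        exact ⟨_, Or.inl ⟨U, hU, rfl⟩, Or.inr ⟨L, ⟨hL, hn⟩, hx⟩⟩
    · simp only [mem_iUnion] at hx
      obtain ⟨U, hU, hx⟩ := hx
      exact ⟨_, Or.inl ⟨U, hU, rfl⟩, Or.inl hx⟩

/-- The margin property: a point `x` of a member of `K` and a point `y` at distance less than `r`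
are either both in the new holes or both outside. -/
theorem margin (hr : 0 < r) (hKs : Sep (2 * r) K) {x y : X} (hx : x ∈ ⋃₀ K)
    (hxy : dist x y < r) : (x ∈ ⋃ U ∈ W, Vh r K U) ↔ (y ∈ ⋃ U ∈ W, Vh r K U) := by
  obtain ⟨L, hL, hx⟩ := hx
  by_cases h : ∃ U ∈ W, Near r L U
  · obtain ⟨U, hU, hn⟩ := h
    have hsub : L ⊆ St r K U := fun z hz => Or.inr ⟨L, ⟨hL, hn⟩, hz⟩
    constructor
    · intro _
      exact mem_biUnion hU ⟨x, hsub hx, by rw [dist_comm]; exact hxy⟩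
    · intro _
      exact mem_biUnion hU ⟨x, hsub hx, by rw [dist_self]; exact hr⟩
  · push Not at h
    have hfar : ∀ z, dist x z < r → z ∉ ⋃ U ∈ W, Vh r K U := by
      intro z hz hzU
      simp only [mem_iUnion] at hzU
      obtain ⟨U, hU, w, hw, hzw⟩ := hzU
      have hxw : 2 * r ≤ dist x w := by
        rcases hw with hw | ⟨L', ⟨hL', hn⟩, hw⟩
        · by_contra hc
          push Not at hc
          exact h U hU ⟨x, hx, w, hw, hc⟩
        · exact hKs L hL L' hL' (fun he => h U hU (he ▸ hn)) x hx w hw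
      have := dist_triangle x z w
      linarith
    constructor
    · intro hx'
      exact absurd hx' (hfar x (by rw [dist_self]; exact hr))
    · intro hy'
      exact absurd hy' (hfar y hxy)

end H63WH
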