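import Mathlib
import Pool.Agent.H63WH.Step

set_option autoImplicit false

/-! Families all of whose colours but two are bounded have finite decomposition complexity. -/

namespace H63WH

open Set Metric

variable {X : Type*} [MetricSpace X]

/-- the sets of diameter at most `D` -/
def BD (X : Type*) [MetricSpace X] (D : ℝ) : Set (Set X) := {P | ∀ x ∈ P, ∀ y ∈ P, dist x y ≤ D}

/-- at every scale the members of `F` have two colours over a family with finite decomposition
complexity and `m` colours over a bounded family -/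
def QQ (m : ℕ) (F : Set (Set X)) : Prop :=
  ∀ r : ℝ, 0 < r → ∃ Y : Set (Set X), ∃ D : ℝ, FDC Y ∧ ∀ A ∈ F,
    ∃ B : Fin 2 → Set X, ∃ C : Fin m → Set X, A = (⋃ k, B k) ∪ (⋃ k, C k) ∧
      (∀ k, RDisj r Y (B k)) ∧ ∀ k, RDisj r (BD X D) (C k)

theorem fdc_bd (D : ℝ) : FDC (BD X D) := fdc_bdd ⟨D, fun _ hA => hA⟩

/-! ### The nested holes -/

section Holes

variable (r : ℝ) (W : ℕ → Set (Set X))

/-- the family of components of the union of the holes of level less than `i` -/
def KK : ℕ → Set (Set X)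
  | 0 => ∅
  | i + 1 => Nx r (KK i) (W i)

/-- the union of the holes of level `i` -/
def VV (i : ℕ) : Set X := ⋃ U ∈ W i, Vh r (KK r W i) U

theorem kk_union (i : ℕ) : ⋃₀ (KK r W i) = ⋃ j : Fin i, VV r W j := by
  induction i with
  | zero => simp [KK]
  | succ i ih =>
    rw [KK, nx_union, ih]
    ext x
    simp only [mem_union, mem_iUnion, VV]
    constructor
    · rintro (⟨j, hj⟩ | h)
      · exact ⟨j.castSucc, hj⟩
      · exact ⟨Fin.last i, h⟩
    · rintro ⟨j, hj⟩
      rcases j.lastCases (motive := fun j => j = Fin.last i ∨ ∃ k : Fin i, j = k.castSucc)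
        (Or.inl rfl) (fun k => Or.inr ⟨k, rfl⟩) with h | ⟨k, h⟩
      · subst h
        exact Or.inr hj
      · subst h
        exact Or.inl ⟨k, hj⟩

variable {r W}
variable {T D l : ℕ → ℝ}

theorem kk_prop (hr : 0 < r) (hT0 : T 0 = 0) (hTs : ∀ i, T (i + 1) = D i + 4 * T i + 10 * r)
    (hD : ∀ i, 0 ≤ D i) (hWb : ∀ i, BddBy (D i) (W i)) (hWs : ∀ i, Sep (l i) (W i))
    (hl : ∀ i, 4 * T i + 12 * r ≤ l i) (i : ℕ) :
    0 ≤ T i ∧ BddBy (T i) (KK r W i) ∧ Sep (2 * r) (KK r W i) := by
  induction i with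
  | zero =>
    refine ⟨hT0.ge, ?_, ?_⟩
    · intro A hA
      exact absurd hA (notMem_empty A)
    · intro A hA
      exact absurd hA (notMem_empty A)
  | succ i ih =>
    obtain ⟨h1, h2, h3⟩ := ih
    refine ⟨?_, ?_, ?_⟩
    · rw [hTs]
      have := hD i
      linarith
    · rw [hTs]
      exact nx_bdd hr h1 (hD i) h2 (hWb i)
    · exact nx_sep hr h1 h2 h3 (hWs i) (hl i)

/-- two points at distance less than `r` are separated by at most one level -/
theorem vv_lower (hr : 0 < r) (hK : ∀ i, Sep (2 * r) (KK r W i)) {i j : ℕ} (hij : i < j)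
    {x y : X} (hxy : dist x y < r) (hx : x ∈ VV r W j) (hy : y ∉ VV r W j) :
    x ∉ VV r W i ∧ y ∉ VV r W i := by
  have hsub : ∀ z, z ∈ VV r W i → z ∈ ⋃₀ (KK r W j) := by
    intro z hz
    rw [kk_union]
    exact mem_iUnion.2 ⟨⟨i, hij⟩, hz⟩
  constructor
  · intro h
    exact hy ((margin hr (hK j) (hsub x h) hxy).1 hx)
  · intro h
    rw [dist_comm] at hxy
    exact hy ((margin hr (hK j) (hsub y h) hxy).2 hx)

open Classical in
/-- the parity of the number of levels less than `M` whose holes contain `x` -/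
noncomputable def par (r : ℝ) (W : ℕ → Set (Set X)) (M : ℕ) (x : X) : ZMod 2 :=
  ∑ i ∈ Finset.range M, if x ∈ VV r W i then 1 else 0

theorem same_of_par (hr : 0 < r) (hK : ∀ i, Sep (2 * r) (KK r W i)) {M : ℕ} {x y : X}
    (hxy : dist x y < r) (hp : par r W M x = par r W M y) {i : ℕ} (hi : i < M) :
    x ∈ VV r W i ↔ y ∈ VV r W i := by
  classical
  by_contra hne
  have hother : ∀ j < M, j ≠ i → (x ∈ VV r W j ↔ y ∈ VV r W j) := by
    intro j _ hji
    by_contra hne'
    have hyx : dist y x < r := by rw [dist_comm]; exact hxy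
    rcases lt_or_gt_of_ne hji with h | h
    · -- `j < i`, they differ at `i`
      by_cases hx : x ∈ VV r W i
      · have hy : y ∉ VV r W i := fun h => hne ⟨fun _ => h, fun _ => hx⟩
        obtain ⟨h1, h2⟩ := vv_lower hr hK h hxy hx hy
        exact hne' ⟨fun h => absurd h h1, fun h => absurd h h2⟩
      · have hy : y ∈ VV r W i := by
          by_contra hy
          exact hne ⟨fun h => absurd h hx, fun h => absurd h hy⟩
        obtain ⟨h1, h2⟩ := vv_lower hr hK h hyx hy hx
        exact hne' ⟨fun h => absurd h h2, fun h => absurd h h1⟩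
    · by_cases hx : x ∈ VV r W j
      · have hy : y ∉ VV r W j := fun h => hne' ⟨fun _ => h, fun _ => hx⟩
        obtain ⟨h1, h2⟩ := vv_lower hr hK h hxy hx hy
        exact hne ⟨fun h => absurd h h1, fun h => absurd h h2⟩
      · have hy : y ∈ VV r W j := by
          by_contra hy
          exact hne' ⟨fun h => absurd h hx, fun h => absurd h hy⟩
        obtain ⟨h1, h2⟩ := vv_lower hr hK h hyx hy hx
        exact hne ⟨fun h => absurd h h2, fun h => absurd h h1⟩
  have hdiff : par r W M x - par r W M y =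
      (if x ∈ VV r W i then (1 : ZMod 2) else 0) - (if y ∈ VV r W i then 1 else 0) := by
    unfold par
    rw [← Finset.sum_sub_distrib, Finset.sum_eq_single_of_mem i (Finset.mem_range.2 hi)]
    intro j hj hji
    have := hother j (Finset.mem_range.1 hj) hji
    by_cases hx : x ∈ VV r W j
    · rw [if_pos hx, if_pos (this.1 hx), sub_self]
    · rw [if_neg hx, if_neg fun h => hx (this.2 h), sub_self]
  rw [hp, sub_self] at hdiff
  by_cases hx : x ∈ VV r W i
  · have hy : y ∉ VV r W i := fun h => hne ⟨fun _ => h, fun _ => hx⟩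
    rw [if_pos hx, if_neg hy] at hdiff
    simp at hdiff
  · have hy : y ∈ VV r W i := by
      by_contra hy
      exact hne ⟨fun h => absurd h hx, fun h => absurd h hy⟩
    rw [if_neg hx, if_pos hy] at hdiff
    simp at hdiff

/-- The decomposition of a bounded set into nested pieces. -/
theorem holes_dec (hr : 0 < r) (hT0 : T 0 = 0) (hTs : ∀ i, T (i + 1) = D i + 4 * T i + 10 * r)
    (hD : ∀ i, 0 ≤ D i) (hWb : ∀ i, BddBy (D i) (W i)) (hWs : ∀ i, Sep (l i) (W i))
    (hl : ∀ i, 4 * T i + 12 * r ≤ l i) (A : Set X) (M : ℕ)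
    (hA : ∀ x ∈ A, ∀ y ∈ A, dist x y ≤ T M) :
    ∃ B : Fin 2 → Set X, A = (⋃ k, B k) ∧ ∀ k, RDisj r
      {Q | Q ⊆ A ∧ ∃ i, (∀ x ∈ Q, ∀ y ∈ Q, dist x y ≤ T (i + 1)) ∧
        ∀ j < i, ∀ x ∈ Q, x ∉ ⋃₀ (W j)} (B k) := by
  classical
  have hKp := kk_prop hr hT0 hTs hD hWb hWs hl
  have hK : ∀ i, Sep (2 * r) (KK r W i) := fun i => (hKp i).2.2
  have hmono : ∀ i, T i ≤ T (i + 1) := by
    intro i
    have h1 := (hKp i).1
    have h2 := hD i
    rw [hTs]
    linarith
  have hsub : ∀ j x, x ∉ VV r W j → x ∉ ⋃₀ (W j) := by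
    rintro j x hx ⟨U, hU, hxU⟩
    exact hx (mem_biUnion hU (sub_vh hr hxU))
  let c : X → Fin 2 := fun x => par r W M x
  let P : Fin 2 → ℕ → Set X → Set X := fun k i U =>
    {x | x ∈ A ∧ c x = k ∧ x ∈ Vh r (KK r W i) U ∧ ∀ j < i, x ∉ VV r W j}
  let R : Fin 2 → Set X := fun k => {x | x ∈ A ∧ c x = k ∧ ∀ j < M, x ∉ VV r W j}
  refine ⟨fun k => {x | x ∈ A ∧ c x = k}, ?_, fun k => ?_⟩
  · ext x
    simp only [mem_iUnion]
    constructor
    · intro hx
      exact ⟨c x, hx, rfl⟩
    · rintro ⟨_, hx, _⟩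
      exact hx
  refine ⟨{Q | (∃ i < M, ∃ U ∈ W i, Q = P k i U) ∨ Q = R k}, ?_, ?_, ?_⟩
  · ext x
    constructor
    · rintro ⟨_, (⟨i, _, U, _, rfl⟩ | rfl), hx⟩
      · exact ⟨hx.1, hx.2.1⟩
      · exact ⟨hx.1, hx.2.1⟩
    · rintro ⟨hx, hc⟩
      by_cases h : ∃ j, j < M ∧ x ∈ VV r W j
      · have hj := Nat.find_spec h
        have hmin := fun j (hj' : j < Nat.find h) => Nat.find_min h hj'
        set i := Nat.find h with hi
        have hV := hj.2
        simp only [VV, mem_iUnion] at hV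
        obtain ⟨U, hU, hxU⟩ := hV
        refine ⟨P k i U, Or.inl ⟨i, hj.1, U, hU, rfl⟩, hx, hc, hxU, fun j hj' hxj => ?_⟩
        exact hmin j hj' ⟨hj'.trans hj.1, hxj⟩
      · push Not at h
        exact ⟨R k, Or.inr rfl, hx, hc, h⟩
  · rintro Q (⟨i, _, U, hU, rfl⟩ | rfl)
    · refine ⟨fun x hx => hx.1, i, ?_, ?_⟩
      · intro x hx y hy
        have hmem : Mh r (KK r W i) U ∈ KK r W (i + 1) := Or.inl ⟨U, hU, rfl⟩
        exact (hKp (i + 1)).2.1 _ hmem x (vh_sub_mh hx.2.2.1) y (vh_sub_mh hy.2.2.1)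
      · intro j hj x hx
        exact hsub j x (hx.2.2.2 j hj)
    · refine ⟨fun x hx => hx.1, M, ?_, ?_⟩
      · intro x hx y hy
        exact (hA x hx.1 y hy.1).trans (hmono M)
      · intro j hj x hx
        exact hsub j x (hx.2.2 j hj)
  · intro Q₁ h₁ Q₂ h₂ hne x hx y hy
    by_contra hxy
    push Not at hxy
    have hcx : c x = k := by
      rcases h₁ with ⟨i, _, U, _, rfl⟩ | rfl
      · exact hx.2.1
      · exact hx.2.1
    have hcy : c y = k := by
      rcases h₂ with ⟨i, _, U, _, rfl⟩ | rfl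
      · exact hy.2.1
      · exact hy.2.1
    have hp : par r W M x = par r W M y := hcx.trans hcy.symm
    have hsame : ∀ i, i < M → (x ∈ VV r W i ↔ y ∈ VV r W i) :=
      fun i hi => same_of_par hr hK hxy hp hi
    rcases h₁ with ⟨i, hi, U, hU, rfl⟩ | rfl
    · have hxV : x ∈ VV r W i := mem_biUnion hU hx.2.2.1
      rcases h₂ with ⟨i', hi', U', hU', rfl⟩ | rfl
      · have hyV : y ∈ VV r W i' := mem_biUnion hU' hy.2.2.1
        rcases lt_trichotomy i i' with h | h | h
        · exact hy.2.2.2 i h ((hsame i hi).1 hxV)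
        · subst h
          by_cases hUU : U = U'
          · subst hUU
            exact hne rfl
          · have := vh_sep hr (hKp i).1 (hKp i).2.1 (hWs i) (hl i) hU hU' hUU hx.2.2.1 hy.2.2.1
            linarith
        · exact hx.2.2.2 i' h ((hsame i' hi').2 hyV)
      · exact hy.2.2 i hi ((hsame i hi).1 hxV)
    · rcases h₂ with ⟨i', hi', U', hU', rfl⟩ | rfl
      · have hyV : y ∈ VV r W i' := mem_biUnion hU' hy.2.2.1
        exact hx.2.2 i' hi' ((hsame i' hi').2 hyV)
      · exact hne rfl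

end Holes

/-- Removing one bounded colour at all scales. -/
theorem fdc_step {m : ℕ} (ih : ∀ G : Set (Set X), QQ m G → FDC G) {F : Set (Set X)}
    (hF : QQ (m + 1) F) : FDC F := by
  classical
  apply fdc_of_bs
  refine fdc_dec fun r hr => ?_
  choose! Y D hY hdec using hF
  -- the scales
  let lam : ℕ → ℝ → ℝ := fun i t => 4 * t + 12 * r + i
  let T : ℕ → ℝ := fun n => Nat.rec 0 (fun i t => max (D (lam i t)) 0 + 4 * t + 10 * r) n
  let l : ℕ → ℝ := fun i => lam i (T i)
  let DD : ℕ → ℝ := fun i => max (D (l i)) 0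
  have hT0 : T 0 = 0 := rfl
  have hTs : ∀ i, T (i + 1) = DD i + 4 * T i + 10 * r := fun i => rfl
  have hDD : ∀ i, 0 ≤ DD i := fun i => le_max_right _ _
  have hTpos : ∀ i, 0 ≤ T i := by
    intro i
    induction i with
    | zero => exact hT0.ge
    | succ i ih =>
      rw [hTs]
      have := hDD i
      linarith
  have hTmono : Monotone T := by
    apply monotone_nat_of_le_succ
    intro i
    rw [hTs]
    have h1 := hDD i
    have h2 := hTpos i
    linarith
  have hTgrow : ∀ i : ℕ, (i : ℝ) * (10 * r) ≤ T i := by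
    intro i
    induction i with
    | zero => simp [hT0]
    | succ i ih =>
      rw [hTs]
      push_cast
      have h1 := hDD i
      have h2 := hTpos i
      nlinarith
  have hlpos : ∀ i, 0 < l i := by
    intro i
    have h2 := hTpos i
    have h3 : (0 : ℝ) ≤ i := Nat.cast_nonneg i
    show 0 < 4 * T i + 12 * r + i
    linarith
  have hl : ∀ i, 4 * T i + 12 * r ≤ l i := by
    intro i
    have h3 : (0 : ℝ) ≤ i := Nat.cast_nonneg i
    show 4 * T i + 12 * r ≤ 4 * T i + 12 * r + i
    linarith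
  have hli : ∀ i : ℕ, (i : ℝ) ≤ l i := by
    intro i
    have h2 := hTpos i
    show (i : ℝ) ≤ 4 * T i + 12 * r + i
    linarith
  -- the decompositions of the members of `F` at the scales `l i`
  have hdec' : ∀ A, A ∈ F → ∀ i : ℕ, ∃ B : Fin 2 → Set X, ∃ C : Fin (m + 1) → Set X,
      A = (⋃ k, B k) ∪ (⋃ k, C k) ∧ (∀ k, RDisj (l i) (Y (l i)) (B k)) ∧
        ∀ k, RDisj (l i) (BD X (D (l i))) (C k) := fun A hA i => hdec (l i) (hlpos i) A hA
  choose! Bf Cf hAf hBf hCf using hdec'
  choose! Uf hU1 hU2 hU3 using hCf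
  -- the family of pieces
  let G : Set (Set X) := {Q | ∃ P ∈ F, Q ⊆ P ∧ ∃ i, (∀ x ∈ Q, ∀ y ∈ Q, dist x y ≤ T (i + 1)) ∧
    ∀ j < i, ∀ x ∈ Q, x ∉ Cf P j (Fin.last m)}
  refine ⟨G, ih G ?_, ?_⟩
  · -- the family `G` has one colour less
    intro s hs
    obtain ⟨j, hj⟩ := exists_nat_ge s
    have hsl : s ≤ l j := hj.trans (hli j)
    refine ⟨{Q | ∃ P ∈ Y (l j), Q ⊆ P} ∪ BD X (T (j + 1)), D (l j),
      fdc_union (fdc_subsets (hY (l j) (hlpos j))) (fdc_bd _), ?_⟩
    rintro Q ⟨P, hP, hQP, i, hQT, hQ⟩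
    rcases lt_or_ge j i with hji | hij
    · refine ⟨fun k => Q ∩ Bf P j k, fun k => Q ∩ Cf P j k.castSucc, ?_, ?_, ?_⟩
      · ext x
        constructor
        · intro hx
          have hxP := hQP hx
          rw [hAf P hP j] at hxP
          rcases hxP with hxP | hxP
          · simp only [mem_iUnion] at hxP
            obtain ⟨k, hk⟩ := hxP
            exact Or.inl (mem_iUnion.2 ⟨k, hx, hk⟩)
          · simp only [mem_iUnion] at hxP
            obtain ⟨k, hk⟩ := hxP
            rcases k.lastCases (motive := fun k => k = Fin.last m ∨ ∃ k' : Fin m, k = k'.castSucc)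
              (Or.inl rfl) (fun k => Or.inr ⟨k, rfl⟩) with h | ⟨k', h⟩
            · subst h
              exact absurd hk (hQ j hji x hx)
            · subst h
              exact Or.inr (mem_iUnion.2 ⟨k', hx, hk⟩)
        · rintro (hx | hx)
          · simp only [mem_iUnion] at hx
            obtain ⟨k, hx, _⟩ := hx
            exact hx
          · simp only [mem_iUnion] at hx
            obtain ⟨k, hx, _⟩ := hx
            exact hx
      · intro k
        exact (((hBf P hP j k).mono_r hsl).inter Q).mono subset_union_left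
      · intro k
        have hC : RDisj (l j) (BD X (D (l j))) (Cf P j k.castSucc) :=
          ⟨Uf P j k.castSucc, hU1 P hP j _, hU2 P hP j _, hU3 P hP j _⟩
        refine ((hC.mono_r hsl).inter Q).mono ?_
        rintro S ⟨S', hS', hSS⟩ x hx y hy
        exact hS' x (hSS hx) y (hSS hy)
    · refine ⟨![Q, ∅], fun _ => ∅, ?_, ?_, fun _ => rdisj_empty⟩
      · ext x
        simp [Fin.exists_fin_two]
      · intro k
        have hmem : Q ∈ {Q | ∃ P ∈ Y (l j), Q ⊆ P} ∪ BD X (T (j + 1)) := by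
          right
          intro x hx y hy
          exact (hQT x hx y hy).trans (hTmono (Nat.succ_le_succ hij))
        fin_cases k
        · exact rdisj_single hmem
        · exact rdisj_empty
  · -- the decomposition
    rintro A ⟨⟨P, hP, hAP⟩, D₀, hA⟩
    obtain ⟨M, hM⟩ := exists_nat_ge (D₀ / (10 * r))
    have hDM : D₀ ≤ T M := by
      refine le_trans ?_ (hTgrow M)
      rwa [div_le_iff₀ (by positivity)] at hM
    obtain ⟨B, hB, hBr⟩ := holes_dec (r := r) (W := fun i => Uf P i (Fin.last m)) (T := T)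
      (D := DD) (l := l) hr hT0 hTs hDD
      (fun i S hS x hx y hy => (hU2 P hP i _ hS x hx y hy).trans (le_max_left _ _))
      (fun i => hU3 P hP i _) hl A M (fun x hx y hy => (hA x hx y hy).trans hDM)
    refine ⟨B, hB, fun k => (hBr k).mono ?_⟩
    rintro Q ⟨hQA, i, hQT, hQ⟩
    refine ⟨P, hP, hQA.trans hAP, i, hQT, fun j hj x hx => ?_⟩
    rw [← hU1 P hP j (Fin.last m)]
    exact hQ j hj x hx

/-- If at every scale the members of `F` have two colours over a family with finite decomposition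
complexity and `m` colours over a bounded family, then `F` has finite decomposition complexity. -/
theorem fdc_of_qq : ∀ (m : ℕ) (F : Set (Set X)), QQ m F → FDC F := by
  intro m
  induction m with
  | zero =>
    intro F hF
    refine fdc_dec fun r hr => ?_
    obtain ⟨Y, D, hY, h⟩ := hF r hr
    refine ⟨Y, hY, fun A hA => ?_⟩
    obtain ⟨B, C, hA', hB, _⟩ := h A hA
    refine ⟨B, ?_, hB⟩
    have hC : (⋃ k, C k) = ∅ := iUnion_of_empty C
    rw [hA', hC, union_empty]
  | succ m ih =>
    intro F hF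
    exact fdc_step ih hF

end H63WH
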