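import Mathlib
import Pool.Agent.H63WH.Main

set_option autoImplicit false

/-! Large scale doubling sets have boundedly many bounded colours at every scale. -/

namespace H63WH

open Set Metric

/-- Greedy colouring along a well-order. -/
theorem greedy {α : Type*} (adj : α → α → Prop) (n : ℕ)
    (h : ∀ z, ¬ ∃ g : Fin n → α, Function.Injective g ∧ ∀ i, adj (g i) z ∧ g i ≠ z) :
    ∃ c : α → ℕ, (∀ z, c z < n) ∧ ∀ x y, adj x y → adj y x → x ≠ y → c x ≠ c y := by
  classical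
  have wf : WellFounded (WellOrderingRel : α → α → Prop) := IsWellFounded.wf
  let F : ∀ z : α, (∀ y, WellOrderingRel y z → ℕ) → ℕ :=
    fun z f => sInf {k | ∀ y (hy : WellOrderingRel y z), adj y z → f y hy ≠ k}
  let c : α → ℕ := wf.fix F
  have hc : ∀ z, c z = sInf {k | ∀ y, WellOrderingRel y z → adj y z → c y ≠ k} :=
    fun z => wf.fix_eq F z
  have hirr : ∀ z : α, ¬ WellOrderingRel z z := fun z => irrefl z
  have hex : ∀ z, ∃ k < n, ∀ y, WellOrderingRel y z → adj y z → c y ≠ k := by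
    intro z
    by_contra hno
    push Not at hno
    choose g hg1 hg2 hg3 using hno
    refine h z ⟨fun i => g i i.2, ?_, fun i => ⟨hg2 i i.2, fun he => ?_⟩⟩
    · intro i j hij
      have h1 := hg3 i i.2
      have h2 := hg3 j j.2
      simp only at hij
      rw [hij, h2] at h1
      exact (Fin.ext h1.symm)
    · have := hg1 i i.2
      simp only at he
      rw [he] at this
      exact hirr z this
  have hmem : ∀ z, ∀ y, WellOrderingRel y z → adj y z → c y ≠ c z := by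
    intro z
    obtain ⟨k, _, hk⟩ := hex z
    have hne : {k | ∀ y, WellOrderingRel y z → adj y z → c y ≠ k}.Nonempty := ⟨k, hk⟩
    have := Nat.sInf_mem hne
    rw [← hc z] at this
    exact this
  refine ⟨c, fun z => ?_, fun x y hxy hyx hne => ?_⟩
  · obtain ⟨k, hkn, hk⟩ := hex z
    rw [hc z]
    exact lt_of_le_of_lt (Nat.sInf_le hk) hkn
  · rcases trichotomous_of (WellOrderingRel : α → α → Prop) x y with h1 | h1 | h1
    · exact hmem y x h1 hxy
    · exact absurd h1 hne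
    · exact (hmem x y h1 hyx).symm

variable {X : Type*} [MetricSpace X]

/-- the members of `Z` are `(N,R)`-large scale doubling -/
def LSD (N : ℕ) (R : ℝ) (Z : Set (Set X)) : Prop :=
  ∀ W ∈ Z, ∀ x : X, ∀ s : ℝ, R ≤ s → ∃ c : Fin N → X, W ∩ ball x (2 * s) ⊆ ⋃ i, ball (c i) s

theorem exists_net (Z : Set X) {ρ : ℝ} (hρ : 0 < ρ) : ∃ S ⊆ Z,
    (∀ x ∈ S, ∀ y ∈ S, x ≠ y → ρ ≤ dist x y) ∧ ∀ x ∈ Z, ∃ y ∈ S, dist x y < ρ := by
  obtain ⟨S, hS⟩ := zorn_subset {S : Set X | S ⊆ Z ∧ ∀ x ∈ S, ∀ y ∈ S, x ≠ y → ρ ≤ dist x y} (by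
    intro c hc hchain
    refine ⟨⋃₀ c, ⟨sUnion_subset fun s hs => (hc hs).1, ?_⟩, fun s hs => subset_sUnion_of_mem hs⟩
    rintro x ⟨s, hs, hxs⟩ y ⟨t, ht, hyt⟩ hne
    rcases hchain.total hs ht with h | h
    · exact (hc ht).2 x (h hxs) y hyt hne
    · exact (hc hs).2 x hxs y (h hyt) hne)
  refine ⟨S, hS.prop.1, hS.prop.2, fun x hx => ?_⟩
  by_contra hno
  push Not at hno
  have hxS : x ∉ S := fun h => by
    have := hno x h
    rw [dist_self] at this
    linarith
  have : insert x S ⊆ S := hS.le_of_ge ⟨insert_subset hx hS.prop.1, by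
    rintro a (rfl | ha) b (rfl | hb) hne
    · exact absurd rfl hne
    · exact hno b hb
    · rw [dist_comm]
      exact hno a ha
    · exact hS.prop.2 a ha b hb hne⟩ (subset_insert x S)
  exact hxS (this (mem_insert x S))

theorem lsd_zero {R : ℝ} (hR : 0 < R) {A : Set X} (hA : LSD 0 R {A}) : A = ∅ := by
  ext w
  simp only [mem_empty_iff_false, iff_false]
  intro hw
  obtain ⟨c, hc⟩ := hA A rfl w R le_rfl
  have hw' : w ∈ A ∩ ball w (2 * R) := ⟨hw, by
    rw [mem_ball, dist_self]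
    linarith⟩
  obtain ⟨i, _⟩ := mem_iUnion.1 (hc hw')
  exact i.elim0

theorem lsd_colour {N : ℕ} {R : ℝ} (hR : 0 < R) {A : Set X} (hA : LSD N R {A}) {r : ℝ}
    (hr : 0 < r) : ∃ C : Fin (N ^ 3) → Set X, A = (⋃ k, C k) ∧
      ∀ k, RDisj r (BD X (2 * max r (2 * R))) (C k) := by
  classical
  rcases Nat.eq_zero_or_pos N with rfl | hNpos
  · refine ⟨fun _ => ∅, ?_, fun _ => rdisj_empty⟩
    rw [lsd_zero hR hA]
    simp
  set ρ := max r (2 * R) with hρdef
  have hρr : r ≤ ρ := le_max_left _ _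
  have hρR : 2 * R ≤ ρ := le_max_right _ _
  have hρ : 0 < ρ := hr.trans_le hρr
  obtain ⟨S, hSA, hSsep, hSd⟩ := exists_net A hρ
  have hA' := hA A rfl
  -- at most `N ^ 3` points of the net in a ball of radius `4 ρ`
  have hcount : ∀ z : X, ∃ f : X → Fin N × Fin N × Fin N,
      ∀ x ∈ S, ∀ y ∈ S, dist x z < 4 * ρ → dist y z < 4 * ρ → f x = f y → x = y := by
    intro z
    obtain ⟨c1, hc1⟩ := hA' z (2 * ρ) (by linarith)
    choose c2 hc2 using fun i => hA' (c1 i) ρ (by linarith)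
    choose c3 hc3 using fun i j => hA' (c2 i j) (ρ / 2) (by linarith)
    have hf : ∀ x : X, ∃ p : Fin N × Fin N × Fin N, x ∈ S → dist x z < 4 * ρ →
        dist x (c3 p.1 p.2.1 p.2.2) < ρ / 2 := by
      intro x
      by_cases hx : x ∈ S ∧ dist x z < 4 * ρ
      · have h1 : x ∈ A ∩ ball z (2 * (2 * ρ)) := ⟨hSA hx.1, by rw [mem_ball]; linarith [hx.2]⟩
        obtain ⟨i, hi⟩ := mem_iUnion.1 (hc1 h1)
        have h2 : x ∈ A ∩ ball (c1 i) (2 * ρ) := ⟨hSA hx.1, hi⟩
        obtain ⟨j, hj⟩ := mem_iUnion.1 (hc2 i h2)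
        have h3 : x ∈ A ∩ ball (c2 i j) (2 * (ρ / 2)) := ⟨hSA hx.1, by
          rw [mem_ball] at hj ⊢
          linarith⟩
        obtain ⟨k, hk⟩ := mem_iUnion.1 (hc3 i j h3)
        exact ⟨(i, j, k), fun _ _ => hk⟩
      · exact ⟨(⟨0, hNpos⟩, ⟨0, hNpos⟩, ⟨0, hNpos⟩), fun h1 h2 => absurd ⟨h1, h2⟩ hx⟩
    choose f hf using hf
    refine ⟨f, fun x hx y hy hxz hyz hxy => ?_⟩
    by_contra hne
    have h1 := hf x hx hxz
    have h2 := hf y hy hyz
    rw [hxy] at h1
    have h3 := hSsep x hx y hy hne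
    have h4 := dist_triangle x (c3 (f y).1 (f y).2.1 (f y).2.2) y
    rw [dist_comm (c3 (f y).1 (f y).2.1 (f y).2.2) y] at h4
    linarith
  -- colour the net
  obtain ⟨col, hcol1, hcol2⟩ := greedy (α := S) (fun x y => dist (x : X) y < 3 * ρ) (N ^ 3) (by
    rintro z ⟨g, hginj, hg⟩
    obtain ⟨f, hf⟩ := hcount z
    have hinj : Function.Injective (fun o : Option (Fin (N ^ 3)) =>
        f (o.elim (z : X) fun i => (g i : X))) := by
      intro a b hab
      simp only at hab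
      rcases a with _ | i <;> rcases b with _ | j
      · rfl
      · exfalso
        have := hf z z.2 (g j) (g j).2 (by rw [dist_self]; linarith) (by linarith [(hg j).1]) hab
        exact (hg j).2 (Subtype.ext this.symm)
      · exfalso
        have := hf (g i) (g i).2 z z.2 (by linarith [(hg i).1]) (by rw [dist_self]; linarith) hab
        exact (hg i).2 (Subtype.ext this)
      · have := hf (g i) (g i).2 (g j) (g j).2 (by linarith [(hg i).1]) (by linarith [(hg j).1]) hab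
        rw [hginj (Subtype.ext this)]
    have hcard := Fintype.card_le_of_injective _ hinj
    simp only [Fintype.card_option, Fintype.card_fin, Fintype.card_prod] at hcard
    have : N * (N * N) = N ^ 3 := by ring
    omega)
  choose! π hπS hπd using hSd
  refine ⟨fun k => {x | ∃ h : x ∈ A, col ⟨π x, hπS x h⟩ = k}, ?_, fun k => ?_⟩
  · ext x
    simp only [mem_iUnion]
    constructor
    · intro hx
      exact ⟨⟨col ⟨π x, hπS x hx⟩, hcol1 _⟩, hx, rfl⟩
    · rintro ⟨_, hx, _⟩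
      exact hx
  · refine ⟨{P | ∃ z : S, col z = k ∧ P = {x | x ∈ A ∧ π x = z}}, ?_, ?_, ?_⟩
    · ext x
      constructor
      · rintro ⟨_, ⟨z, hz, rfl⟩, hx, hxz⟩
        refine ⟨hx, ?_⟩
        rw [← hz]
        congr 1
        exact Subtype.ext hxz
      · rintro ⟨hx, hk⟩
        exact ⟨_, ⟨⟨π x, hπS x hx⟩, hk, rfl⟩, hx, rfl⟩
    · rintro _ ⟨z, _, rfl⟩ x ⟨hx, hxz⟩ y ⟨hy, hyz⟩
      have h1 := hπd x hx
      have h2 := hπd y hy
      rw [hxz] at h1
      rw [hyz] at h2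
      have h3 := dist_triangle x (z : X) y
      rw [dist_comm (z : X) y] at h3
      linarith
    · rintro _ ⟨z, hz, rfl⟩ _ ⟨w, hw, rfl⟩ hne x ⟨hx, hxz⟩ y ⟨hy, hyw⟩
      have hzw : z ≠ w := fun h => hne (by rw [h])
      have h1 := hπd x hx
      have h2 := hπd y hy
      rw [hxz] at h1
      rw [hyw] at h2
      have h3 : 3 * ρ ≤ dist (z : X) w := by
        by_contra hc
        push Not at hc
        exact hcol2 z w hc (by rw [dist_comm]; exact hc) hzw (hz.trans hw.symm)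
      have h4 := dist_triangle (z : X) x w
      have h5 := dist_triangle x y (w : X)
      rw [dist_comm (z : X) x] at h4
      linarith

/-- An `(N,R)`-large scale doubling family has finite decomposition complexity. -/
theorem fdc_lsd {N : ℕ} {R : ℝ} (hR : 0 < R) {Y : Set (Set X)} (hY : LSD N R Y) : FDC Y := by
  refine fdc_of_qq (N ^ 3) Y fun r hr => ⟨∅, 2 * max r (2 * R), fdc_bdd ⟨0, fun A hA =>
    absurd hA (notMem_empty A)⟩, fun A hA => ?_⟩
  obtain ⟨C, hC, hCr⟩ := lsd_colour hR (A := A) (N := N)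
    (fun W hW => by rw [mem_singleton_iff] at hW; subst hW; exact hY W hA) hr
  refine ⟨fun _ => ∅, C, ?_, fun _ => rdisj_empty, hCr⟩
  simpa using hC

/-- Every member of `Z` is a union of `M` sets each of which is an `s`-disjoint union of sets of
diameter at most `D`, where `D` depends only on `s`, for every `s > 0`. -/
def ADim (M : ℕ) (Z : Set (Set X)) : Prop :=
  ∀ s : ℝ, 0 < s → ∃ D : ℝ, ∀ A ∈ Z, ∃ C : Fin M → Set X, A = (⋃ k, C k) ∧
    ∀ k, RDisj s (BD X D) (C k)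

theorem adim_of_lsd {N : ℕ} {R : ℝ} (hR : 0 < R) {Z : Set (Set X)} (hZ : LSD N R Z) :
    ADim (N ^ 3) Z := by
  intro s hs
  refine ⟨2 * max s (2 * R), fun A hA => lsd_colour hR (N := N) (fun W hW => ?_) hs⟩
  rw [mem_singleton_iff] at hW
  subst hW
  exact hZ W hA

theorem ADim.mono {M M' : ℕ} (hM : M ≤ M') {Z : Set (Set X)} (hZ : ADim M Z) : ADim M' Z := by
  classical
  intro s hs
  obtain ⟨D, hD⟩ := hZ s hs
  refine ⟨D, fun A hA => ?_⟩
  obtain ⟨C, hC1, hC2⟩ := hD A hA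
  refine ⟨fun k => if h : (k : ℕ) < M then C ⟨k, h⟩ else ∅, ?_, fun k => ?_⟩
  · rw [hC1]
    ext x
    simp only [mem_iUnion]
    constructor
    · rintro ⟨k, hk⟩
      refine ⟨⟨k, k.2.trans_le hM⟩, ?_⟩
      simpa using hk
    · rintro ⟨k, hk⟩
      by_cases h : (k : ℕ) < M
      · rw [dif_pos h] at hk
        exact ⟨_, hk⟩
      · rw [dif_neg h] at hk
        exact absurd hk (notMem_empty x)
  · show RDisj s (BD X D) (if h : (k : ℕ) < M then C ⟨k, h⟩ else ∅)
    by_cases h : (k : ℕ) < M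
    · rw [dif_pos h]
      exact hC2 _
    · rw [dif_neg h]
      exact rdisj_empty

/-- Two colours over families with finite decomposition complexity and `m` colours over families
of uniformly bounded asymptotic dimension. -/
theorem qq_of_adim {m M : ℕ} {F : Set (Set X)}
    (h : ∀ r : ℝ, 0 < r → ∃ Y Z : Set (Set X), FDC Y ∧ ADim M Z ∧
      ∀ A ∈ F, ∃ B : Fin 2 → Set X, ∃ C : Fin m → Set X, A = (⋃ k, B k) ∪ (⋃ k, C k) ∧
        (∀ k, RDisj r Y (B k)) ∧ ∀ k, RDisj r Z (C k)) : QQ (m * M) F := by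
  intro r hr
  obtain ⟨Y, Z, hY, hZ, hdec⟩ := h r hr
  obtain ⟨D, hD⟩ := hZ r hr
  refine ⟨Y, D, hY, fun A hA => ?_⟩
  obtain ⟨B, C, hABC, hB, hC⟩ := hdec A hA
  choose U hU1 hU2 hU3 using hC
  choose! E hE using hD
  refine ⟨B, fun p => ⋃ W ∈ U (finProdFinEquiv.symm p).1, E W (finProdFinEquiv.symm p).2,
    ?_, hB, ?_⟩
  · rw [hABC]
    congr 1
    ext x
    simp only [mem_iUnion]
    constructor
    · rintro ⟨k, hk⟩
      rw [← hU1 k] at hk
      obtain ⟨W, hW, hx⟩ := hk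
      have hWZ := hU2 k hW
      rw [(hE W hWZ).1] at hx
      obtain ⟨c, hc⟩ := mem_iUnion.1 hx
      refine ⟨finProdFinEquiv (k, c), W, ?_⟩
      rw [Equiv.symm_apply_apply]
      exact ⟨hW, hc⟩
    · rintro ⟨p, W, hW, hx⟩
      refine ⟨(finProdFinEquiv.symm p).1, ?_⟩
      rw [← hU1]
      refine ⟨W, hW, ?_⟩
      rw [(hE W (hU2 _ hW)).1]
      exact mem_iUnion.2 ⟨_, hx⟩
  · intro p
    set k := (finProdFinEquiv.symm p).1
    set c := (finProdFinEquiv.symm p).2
    have hEc : ∀ W, ∃ V : Set (Set X), W ∈ Z → ⋃₀ V = E W c ∧ V ⊆ BD X D ∧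
        ∀ P ∈ V, ∀ Q ∈ V, P ≠ Q → ∀ x ∈ P, ∀ y ∈ Q, r ≤ dist x y := by
      intro W
      by_cases hW : W ∈ Z
      · obtain ⟨V, h⟩ := (hE W hW).2 c
        exact ⟨V, fun _ => h⟩
      · exact ⟨∅, fun h => absurd h hW⟩
    choose V hV using hEc
    refine ⟨⋃ W ∈ U k, V W, ?_, ?_, ?_⟩
    · ext x
      simp only [mem_sUnion, mem_iUnion]
      constructor
      · rintro ⟨P, ⟨W, hW, hP⟩, hx⟩
        refine ⟨W, hW, ?_⟩
        rw [← (hV W (hU2 _ hW)).1]
        exact ⟨P, hP, hx⟩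
      · rintro ⟨W, hW, hx⟩
        rw [← (hV W (hU2 _ hW)).1] at hx
        obtain ⟨P, hP, hx⟩ := hx
        exact ⟨P, ⟨W, hW, hP⟩, hx⟩
    · intro P hP
      simp only [mem_iUnion] at hP
      obtain ⟨W, hW, hP⟩ := hP
      exact (hV W (hU2 _ hW)).2.1 hP
    · intro P hP Q hQ hne x hx y hy
      simp only [mem_iUnion] at hP hQ
      obtain ⟨W, hW, hP⟩ := hP
      obtain ⟨W', hW', hQ⟩ := hQ
      by_cases hWW : W = W'
      · subst hWW
        exact (hV W (hU2 _ hW)).2.2 P hP Q hQ hne x hx y hy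
      · have hsub : ∀ W ∈ U k, ∀ P ∈ V W, P ⊆ W := by
          intro W hW P hP x hx
          have hWZ := hU2 _ hW
          rw [(hE W hWZ).1]
          refine mem_iUnion.2 ⟨c, ?_⟩
          rw [← (hV W hWZ).1]
          exact ⟨P, hP, hx⟩
        exact hU3 k W hW W' hW' hWW x (hsub W hW P hP hx) y (hsub W' hW' Q hQ hy)

end H63WH
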